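import Pool.Agent.COV.StmtsA

/-!
Squad COV (MP_160b6c_nt), row AR3: not two branch points.  (NOB is not needed.)
-/

set_option autoImplicit false

namespace Pool.Agent.COV.H92

open Polynomial

variable {k : Type} [Field k]

/-- `prod (P - u Q)` -/
noncomputable def pi (P Q : k[X]) (R : Multiset k) : k[X] := (R.map fun u => P - C u * Q).prod

theorem rf_mul (P Q : k[X]) : rf (P * Q) = rf P * rf Q := map_mul _ _ _

theorem rf_pow (P : k[X]) (n : ℕ) : rf (P ^ n) = rf P ^ n := map_pow _ _ _

theorem rf_inj {P Q : k[X]} (h : rf P = rf Q) : P = Q := IsFractionRing.injective k[X] (RatFunc k) h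

theorem rf_ne {P : k[X]} (h : P ≠ 0) : rf P ≠ 0 := fun h' => h (rf_inj (h'.trans (map_zero _).symm))

theorem rf_C (u : k) : rf (C u) = algebraMap k (RatFunc k) u := by
  unfold rf
  rw [IsScalarTower.algebraMap_apply k k[X] (RatFunc k)]
  rfl

theorem ae1 {P Q : k[X]} (hQ : Q ≠ 0) (u : k) :
    rf Q * aeval (rf P / rf Q) (X - C u) = rf (P - C u * Q) := by
  have h := rf_ne hQ
  have h1 : rf (P - C u * Q) = rf P - rf (C u) * rf Q := by
    unfold rf
    rw [map_sub, map_mul]
  rw [h1, map_sub, aeval_X, aeval_C, rf_C]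
  field_simp

theorem ae {P Q : k[X]} (hQ : Q ≠ 0) (R : Multiset k) :
    rf Q ^ (Multiset.card R) * aeval (rf P / rf Q) ((R.map fun u => X - C u).prod) =
      rf (pi P Q R) := by
  induction R using Multiset.induction_on with
  | empty => simp [pi, rf]
  | cons u R ih =>
    unfold pi at ih ⊢
    rw [Multiset.map_cons, Multiset.prod_cons, Multiset.card_cons, map_mul, Multiset.map_cons,
      Multiset.prod_cons, rf_mul, ← ih, pow_succ, ← ae1 hQ]
    ring

theorem ae' [IsAlgClosed k] {P Q : k[X]} (hQ : Q ≠ 0) (G : k[X]) :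
    rf Q ^ (Multiset.card G.roots) * aeval (rf P / rf Q) G =
      rf (C G.leadingCoeff * pi P Q G.roots) := by
  conv_lhs => rw [(IsAlgClosed.splits G).eq_prod_roots]
  rw [map_mul, aeval_C, rf_mul, ← ae hQ, rf_C]
  rw [← (IsAlgClosed.splits G).eq_prod_roots]
  ring

theorem cpQ {P Q : k[X]} (h : IsCoprime P Q) (u : k) : IsCoprime (P - C u * Q) Q := by
  have := h.add_mul_right_left (- C u)
  rwa [neg_mul, ← sub_eq_add_neg] at this

theorem cpu {P Q : k[X]} (h : IsCoprime P Q) {u v : k} (huv : u ≠ v) :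
    IsCoprime (P - C u * Q) (P - C v * Q) := by
  have h1 : IsCoprime (C (v - u) * Q) (P - C v * Q) := by
    refine IsCoprime.mul_left ?_ (cpQ h v).symm
    refine ⟨C (v - u)⁻¹, 0, ?_⟩
    rw [← C_mul, inv_mul_cancel₀ (sub_ne_zero.2 huv.symm)]
    simp
  have h2 := h1.add_mul_right_left 1
  have h3 : C (v - u) * Q + 1 * (P - C v * Q) = P - C u * Q := by
    rw [C_sub]
    ring
  rwa [h3] at h2

theorem cpp {L P Q : k[X]} {R : Multiset k} (h : ∀ u ∈ R, IsCoprime L (P - C u * Q)) :
    IsCoprime L (pi P Q R) := by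
  induction R using Multiset.induction_on with
  | empty => exact isCoprime_one_right
  | cons u R ih =>
    have h1 : pi P Q (u ::ₘ R) = (P - C u * Q) * pi P Q R := by
      unfold pi
      rw [Multiset.map_cons, Multiset.prod_cons]
    rw [h1]
    exact IsCoprime.mul_right (h u (Multiset.mem_cons_self _ _))
      (ih fun v hv => h v (Multiset.mem_cons_of_mem hv))

theorem dd [CharZero k] {L : k[X]} (h : L ∣ derivative L) : L.natDegree = 0 := by
  by_contra hn
  have h1 := natDegree_derivative_lt hn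
  have h2 : derivative L = 0 := by
    by_contra h3
    have := natDegree_le_of_dvd h h3
    omega
  exact hn (derivative_eq_zero.1 h2)

theorem wr_sub (P Q : k[X]) (u : k) : wr (P - C u * Q) Q = wr P Q := by
  unfold wr
  rw [derivative_sub, derivative_mul, derivative_C]
  ring

theorem dL [CharZero k] {P Q : k[X]} (h : IsCoprime P Q) {u : k}
    (hd : P - C u * Q ∣ wr P Q) : (P - C u * Q).natDegree = 0 := by
  refine dd ?_
  rw [← wr_sub P Q u] at hd
  unfold wr at hd
  have h1 : P - C u * Q ∣ derivative (P - C u * Q) * Q := by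
    have := dvd_add hd (Dvd.intro (derivative Q) rfl : P - C u * Q ∣ (P - C u * Q) * derivative Q)
    rwa [sub_add_cancel] at this
  exact (cpQ h u).dvd_of_dvd_mul_right h1

theorem dQ [CharZero k] {P Q : k[X]} (h : IsCoprime P Q) (hd : Q ∣ wr P Q) :
    Q.natDegree = 0 := by
  refine dd ?_
  unfold wr at hd
  have h1 : Q ∣ P * derivative Q := by
    have := dvd_sub (Dvd.intro_left (derivative P) rfl : Q ∣ derivative P * Q) hd
    rwa [sub_sub_cancel] at this
  exact h.symm.dvd_of_dvd_mul_left h1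

/-- no common root -/
theorem red {φ θ : RatFunc k} (hθ : ∀ u : k, aeval θ (X - C u) ≠ 0) :
    ∀ (n : ℕ) (N M : k[X]), M.natDegree = n → M ≠ 0 → φ * aeval θ M = aeval θ N →
      ∃ N' M' : k[X], M' ≠ 0 ∧ φ * aeval θ M' = aeval θ N' ∧
        ∀ u, ¬ (N'.IsRoot u ∧ M'.IsRoot u) := by
  intro n
  induction n using Nat.strong_induction_on with
  | _ n ih =>
    intro N M hn hM h
    by_cases hc : ∀ u, ¬ (N.IsRoot u ∧ M.IsRoot u)
    · exact ⟨N, M, hM, h, hc⟩
    · push Not at hc
      obtain ⟨u, hu1, hu2⟩ := hc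
      obtain ⟨N₁, rfl⟩ := dvd_iff_isRoot.2 hu1
      obtain ⟨M₁, rfl⟩ := dvd_iff_isRoot.2 hu2
      have hM1 : M₁ ≠ 0 := right_ne_zero_of_mul hM
      refine ih M₁.natDegree ?_ N₁ M₁ rfl hM1 ?_
      · rw [← hn, natDegree_mul (X_sub_C_ne_zero u) hM1, natDegree_X_sub_C]
        omega
      · rw [map_mul, map_mul] at h
        refine mul_left_cancel₀ (hθ u) ?_
        rw [← h]
        ring

theorem eqE [IsAlgClosed k] {s P Q V N M : k[X]} (hQ : Q ≠ 0) (hW : wr P Q ≠ 0)
    (h : rf s * rf V * rf Q ^ 2 / (rf Q * rf (wr P Q)) * aeval (rf P / rf Q) M =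
      aeval (rf P / rf Q) N) :
    C M.leadingCoeff * s * V * Q ^ (1 + Multiset.card N.roots) * pi P Q M.roots =
      C N.leadingCoeff * wr P Q * Q ^ Multiset.card M.roots * pi P Q N.roots := by
  apply rf_inj
  have hx := rf_ne hQ
  have hw := rf_ne hW
  have eM := ae' (P := P) hQ M
  have eN := ae' (P := P) hQ N
  have h1 : rf s * rf V * rf Q * aeval (rf P / rf Q) M =
      rf (wr P Q) * aeval (rf P / rf Q) N := by
    rw [← h]
    field_simp
  rw [rf_mul] at eM eN
  simp only [rf_mul, rf_pow]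
  calc rf (C M.leadingCoeff) * rf s * rf V * rf Q ^ (1 + Multiset.card N.roots) *
        rf (pi P Q M.roots)
      = rf s * rf V * rf Q ^ (1 + Multiset.card N.roots) *
        (rf (C M.leadingCoeff) * rf (pi P Q M.roots)) := by ring
    _ = rf Q ^ Multiset.card M.roots * rf Q ^ Multiset.card N.roots *
        (rf s * rf V * rf Q * aeval (rf P / rf Q) M) := by
        rw [← eM, pow_add, pow_one]
        ring
    _ = rf (wr P Q) * rf Q ^ Multiset.card M.roots *
        (rf Q ^ Multiset.card N.roots * aeval (rf P / rf Q) N) := by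
        rw [h1]
        ring
    _ = _ := by
        rw [eN]
        ring

theorem pi_ne {P Q : k[X]} (h : ∀ u : k, P - C u * Q ≠ 0) (R : Multiset k) : pi P Q R ≠ 0 := by
  refine Multiset.prod_ne_zero fun h0 => ?_
  obtain ⟨u, _, hu⟩ := Multiset.mem_map.1 h0
  exact h u hu

theorem natd {P Q : k[X]} {d : ℕ} (hne : ∀ u : k, P - C u * Q ≠ 0) {R : Multiset k}
    (h : ∀ u ∈ R, (P - C u * Q).natDegree = d) : (pi P Q R).natDegree = Multiset.card R * d := by
  induction R using Multiset.induction_on with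
  | empty => simp [pi]
  | cons u R ih =>
    have h1 : pi P Q (u ::ₘ R) = (P - C u * Q) * pi P Q R := by
      unfold pi
      rw [Multiset.map_cons, Multiset.prod_cons]
    rw [h1, natDegree_mul (hne u) (pi_ne hne R), h u (Multiset.mem_cons_self _ _),
      ih fun v hv => h v (Multiset.mem_cons_of_mem hv), Multiset.card_cons]
    ring

theorem ar3 : Ar3Stmt := by
  intro k _ _ _ f s P Q V l m hf5 hsq hs0 hs1 hcop hW hV hlm heq ⟨N, M, hM, hNM⟩
  have hQ : Q ≠ 0 := by
    rintro rfl
    exact hW (by simp [wr])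
  have hL : ∀ u : k, P - C u * Q ≠ 0 := fun u hu => hW (by
    rw [← wr_sub P Q u, hu]
    simp [wr])
  have hθ : ∀ u : k, aeval (rf P / rf Q) (X - C u) ≠ 0 := fun u hu => by
    have := ae1 (P := P) hQ u
    rw [hu, mul_zero] at this
    exact rf_ne (hL u) this.symm
  obtain ⟨N', M', hM', hNM', hr⟩ := red hθ _ N M rfl hM hNM
  clear hNM hM
  have hE := eqE hQ hW hNM'
  have hMθ : aeval (rf P / rf Q) M' ≠ 0 := by
    intro h0
    have := ae' (P := P) hQ M'
    rw [h0, mul_zero] at this
    exact rf_ne (mul_ne_zero (C_ne_zero.2 (leadingCoeff_ne_zero.2 hM')) (pi_ne hL _)) this.symm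
  have hN' : N' ≠ 0 := by
    rintro rfl
    rw [map_zero] at hNM'
    refine (mul_ne_zero (div_ne_zero (mul_ne_zero (mul_ne_zero (rf_ne hs0) (rf_ne hV))
      (pow_ne_zero 2 (rf_ne hQ))) (mul_ne_zero (rf_ne hQ) (rf_ne hW))) hMθ) hNM'
  have hb : M'.leadingCoeff ≠ 0 := leadingCoeff_ne_zero.2 hM'
  have ha : N'.leadingCoeff ≠ 0 := leadingCoeff_ne_zero.2 hN'
  set b := M'.leadingCoeff with hbd
  set a := N'.leadingCoeff with had
  -- degrees of the equation
  have hdeg : ∀ u : k, (P - C u * Q).natDegree ≤ max P.natDegree Q.natDegree := by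
    intro u
    refine (natDegree_sub_le _ _).trans (max_le_max le_rfl ?_)
    exact natDegree_C_mul_le _ _
  have hdV : 5 + 2 * V.natDegree = (P - C l * Q).natDegree + (P - C m * Q).natDegree := by
    have hf0 : f ≠ 0 := by
      rintro rfl
      simp at hf5
    have := congrArg natDegree heq
    rw [natDegree_mul hf0 (pow_ne_zero 2 hV), natDegree_pow, hf5,
      natDegree_mul (hL l) (hL m)] at this
    exact this
  by_cases hR : M'.roots = 0
  · -- no pole
    rw [hR] at hE
    have h1 : Q ∣ C a * wr P Q * pi P Q N'.roots := by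
      have h2 : C a * wr P Q * pi P Q N'.roots = Q * (C b * s * V * Q ^ Multiset.card N'.roots) := by
        have h3 : pi P Q 0 = 1 := by simp [pi]
        rw [h3, Multiset.card_zero, pow_zero, mul_one, mul_one] at hE
        rw [← hE, add_comm, pow_succ]
        ring
      rw [h2]
      exact Dvd.intro _ rfl
    have h4 : Q ∣ C a * wr P Q :=
      (cpp (L := Q) (R := N'.roots) (fun u _ => (cpQ hcop u).symm)).dvd_of_dvd_mul_right h1
    have h5 : Q ∣ wr P Q := by
      have h6 : wr P Q = C a⁻¹ * (C a * wr P Q) := by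
        rw [← mul_assoc, ← C_mul, inv_mul_cancel₀ ha, C_1, one_mul]
      rw [h6]
      exact h4.mul_left _
    have h7 := dQ hcop h5
    obtain ⟨q, hq⟩ := natDegree_eq_zero.1 h7
    have h8 : ∀ u : k, (P - C u * Q).natDegree = P.natDegree := by
      intro u
      rw [← hq, ← C_mul]
      exact natDegree_sub_C
    rw [h8, h8] at hdV
    omega
  · obtain ⟨u₀, hu₀⟩ := Multiset.exists_mem_of_ne_zero hR
    have hc : ∀ u ∈ M'.roots, (P - C u * Q).natDegree = 0 := by
      intro u hu
      refine dL hcop ?_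
      have h1 : P - C u * Q ∣ C a * wr P Q * Q ^ Multiset.card M'.roots * pi P Q N'.roots := by
        rw [← hE]
        refine Dvd.dvd.mul_left ?_ _
        exact Multiset.dvd_prod (Multiset.mem_map_of_mem _ hu)
      have h2 : IsCoprime (P - C u * Q) (pi P Q N'.roots) := cpp fun v hv => cpu hcop (by
        rintro rfl
        exact hr u ⟨isRoot_of_mem_roots hv, isRoot_of_mem_roots hu⟩)
      have h3 := h2.dvd_of_dvd_mul_right h1
      have h4 := ((cpQ hcop u).pow_right (n := Multiset.card M'.roots)).dvd_of_dvd_mul_right h3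
      have h6 : wr P Q = C a⁻¹ * (C a * wr P Q) := by
        rw [← mul_assoc, ← C_mul, inv_mul_cancel₀ ha, C_1, one_mul]
      rw [h6]
      exact h4.mul_left _
    -- one point only
    have hQd : Q.natDegree ≠ 0 := by
      intro h7
      obtain ⟨q, hq⟩ := natDegree_eq_zero.1 h7
      obtain ⟨c, hc'⟩ := natDegree_eq_zero.1 (hc u₀ hu₀)
      apply hW
      rw [← wr_sub P Q u₀, ← hc', ← hq]
      simp [wr]
    obtain ⟨c, hc'⟩ := natDegree_eq_zero.1 (hc u₀ hu₀)
    have hP : P = C u₀ * Q + C c := by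
      rw [hc']
      ring
    have hd2 : ∀ u : k, u ≠ u₀ → (P - C u * Q).natDegree = Q.natDegree := by
      intro u hu
      have h1 : P - C u * Q = C (u₀ - u) * Q + C c := by
        rw [hP, C_sub]
        ring
      rw [h1, natDegree_add_C, natDegree_C_mul (sub_ne_zero.2 hu.symm)]
    have hall : M'.roots = Multiset.replicate (Multiset.card M'.roots) u₀ := by
      rw [Multiset.eq_replicate]
      refine ⟨rfl, fun u hu => ?_⟩
      by_contra hne
      exact hQd ((hd2 u hne).symm.trans (hc u hu))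
    have hle : ∀ u : k, (P - C u * Q).natDegree ≤ Q.natDegree := by
      intro u
      by_cases hu : u = u₀
      · rw [hu, hc u₀ hu₀]
        exact Nat.zero_le _
      · exact (hd2 u hu).le
    have hc0 : c ≠ 0 := by
      rintro rfl
      exact hL u₀ (by rw [← hc', C_0])
    have hWd : (wr P Q).natDegree = Q.natDegree - 1 := by
      have h1 : wr P Q = C (-c) * derivative Q := by
        rw [← wr_sub P Q u₀, ← hc']
        unfold wr
        rw [derivative_C, C_neg]
        ring
      rw [h1, natDegree_C_mul (neg_ne_zero.2 hc0), natDegree_derivative]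
    have hNd : (pi P Q N'.roots).natDegree = Multiset.card N'.roots * Q.natDegree :=
      natd hL fun u hu => hd2 u (by
        rintro rfl
        exact hr u ⟨isRoot_of_mem_roots hu, isRoot_of_mem_roots hu₀⟩)
    have hMd : (pi P Q M'.roots).natDegree = 0 := by
      rw [natd hL hc, mul_zero]
    have hcard : 1 ≤ Multiset.card M'.roots := by
      rw [Nat.one_le_iff_ne_zero]
      intro h0
      exact hR (Multiset.card_eq_zero.1 h0)
    have hD := congrArg natDegree hE
    have hW' := hW
    rw [natDegree_mul (by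
        exact mul_ne_zero (mul_ne_zero (mul_ne_zero (C_ne_zero.2 hb) hs0) hV) (pow_ne_zero _ hQ))
        (pi_ne hL _), natDegree_mul (mul_ne_zero (mul_ne_zero (C_ne_zero.2 hb) hs0) hV)
        (pow_ne_zero _ hQ), natDegree_mul (mul_ne_zero (C_ne_zero.2 hb) hs0) hV,
      natDegree_C_mul hb, natDegree_pow, hMd,
      natDegree_mul (mul_ne_zero (mul_ne_zero (C_ne_zero.2 ha) hW) (pow_ne_zero _ hQ))
        (pi_ne hL _), natDegree_mul (mul_ne_zero (C_ne_zero.2 ha) hW) (pow_ne_zero _ hQ),
      natDegree_C_mul ha, natDegree_pow, hNd, hWd] at hD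
    have h1 := hle l
    have h2 := hle m
    have h3 : Q.natDegree * 1 ≤ Multiset.card M'.roots * Q.natDegree := by
      rw [mul_comm]
      exact Nat.mul_le_mul_right _ hcard
    rw [add_mul, one_mul] at hD
    omega

end Pool.Agent.COV.H92
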